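import Mathlib
import Pool.Agent.Lib.MP_bf61d2_nt.Trim.Zeta.Dilation

set_option autoImplicit false

/-!
Growth of the sum over the ideals `I` of `f (N I) (N I) ^ (-s)` in a half plane to the left of
`Re s = 1`, uniformly in the modulus `m` of the even periodic function `f` (MP_bf61d2_nt).
-/

namespace NumberField
end NumberField

namespace Pool.Agent.Lib.MP_bf61d2_nt.Zeta
end Pool.Agent.Lib.MP_bf61d2_nt.Zeta

namespace Pool.Agent.Lib.MP_bf61d2_nt.Artin.Z69
end Pool.Agent.Lib.MP_bf61d2_nt.Artin.Z69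

namespace Pool.Agent.Lib.MP_bf61d2_nt.Artin.ZB69
end Pool.Agent.Lib.MP_bf61d2_nt.Artin.ZB69

namespace Pool.Agent.Lib.MP_bf61d2_nt.Artin.ZM84

open NumberField NumberField.mixedEmbedding NumberField.Units NumberField.InfinitePlace

open Module Filter Topology

open Pool.Agent.Lib.MP_bf61d2_nt.Zeta

open Pool.Agent.Lib.MP_bf61d2_nt.Artin.Z69

open Pool.Agent.Lib.MP_bf61d2_nt.Artin.ZB69

open scoped Classical nonZeroDivisors

variable {K : Type*} [Field K] [NumberField K]

lemma norm_fac_le {m : ℕ} {s : ℂ} (hs : 0 ≤ s.re) : ‖Zeta.fac K m s‖ ≤ 1 := by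
  rw [Zeta.fac, Complex.norm_exp, Complex.neg_re, Complex.re_mul_ofReal]
  have h3 : 0 ≤ s.re * (finrank ℚ K * Real.log (m : ℝ)) :=
    mul_nonneg hs (mul_nonneg (Nat.cast_nonneg _) (Real.log_natCast_nonneg _))
  exact Real.exp_le_one_iff.mpr (by linarith)

section Sum

variable {ι : Type*} [Fintype ι] (b : Basis ι ℝ (mixedSpace K))

end Sum

end Pool.Agent.Lib.MP_bf61d2_nt.Artin.ZM84
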