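import Mathlib
import Pool.Agent.Lib.MP_bf61d2_nt.Trim.Analytic
import Pool.Agent.Lib.MP_bf61d2_nt.Trim.LocalCurve
import Pool.Agent.Lib.MP_bf61d2_nt.Trim.Perm.Trig
import Pool.Agent.Lib.MP_bf61d2_nt.Trim.Places
import Pool.Agent.Lib.MP_bf61d2_nt.Trim.Structure

set_option autoImplicit false

/-!
Conductor aspect (MP_bf61d2_nt), module LTX: the logarithm of the L-series of an elliptic curve
twisted by a Dirichlet character, with a uniform error.
-/

namespace LSeries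
end LSeries

namespace NumberField
end NumberField

namespace Pool.Agent.Lib.MP_bf61d2_nt

open ArithmeticFunction Filter Topology LSeries

namespace LTX84

section euler

variable {ι : Type*} {f : ι → ArithmeticFunction ℤ} {N : ℕ} (χ : DirichletCharacter ℂ N)

end euler

open NumberField IsDedekindDomain

section loc

variable {K : Type*} [Field K] [NumberField K] (W : WeierstrassCurve K)
  (v : HeightOneSpectrum (𝓞 K))

/-- The twisted local variable. -/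
noncomputable def zw (ω s : ℂ) : ℂ :=
  tr W v * (ω * (nm v : ℂ) ^ (-s)) - bb W v * (ω * (nm v : ℂ) ^ (-s)) ^ 2

lemma xi_bound {ω : ℂ} (hω : ‖ω‖ ≤ 1) (s : ℂ) :
    |((tr W v : ℤ) : ℝ)| * ‖ω * (nm v : ℂ) ^ (-s)‖ +
      |((bb W v : ℤ) : ℝ)| * ‖ω * (nm v : ℂ) ^ (-s)‖ ^ 2 ≤ xi W v s.re := by
  have h1 : ‖ω * (nm v : ℂ) ^ (-s)‖ ≤ (nm v : ℝ) ^ (-s.re) := by
    rw [norm_mul, norm_cpow]
    exact mul_le_of_le_one_left (Real.rpow_nonneg (nm_pos v).le _) hω
  rw [xi]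
  gcongr

lemma norm_zw_le {ω : ℂ} (hω : ‖ω‖ ≤ 1) (s : ℂ) : ‖zw W v ω s‖ ≤ xi W v s.re := by
  refine le_trans ?_ (xi_bound W v hω s)
  rw [zw]
  refine (norm_sub_le _ _).trans (le_of_eq ?_)
  rw [norm_mul (tr W v : ℂ), norm_mul (bb W v : ℂ), norm_pow, Complex.norm_intCast,
    Complex.norm_intCast]

lemma norm_log_sub_le {z : ℂ} (h1 : ‖z‖ ≤ 24 / 25) :
    ‖-Complex.log (1 - z) - z‖ ≤ 25 / 2 * ‖z‖ ^ 2 := by
  have h2 := Complex.norm_log_one_add_sub_self_le (z := -z) (by rw [norm_neg]; linarith)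
  rw [norm_neg] at h2
  have e : -Complex.log (1 - z) - z = -(Complex.log (1 + -z) - -z) := by
    rw [sub_eq_add_neg 1]; ring
  rw [e, norm_neg]
  refine h2.trans ?_
  have h3 : (1 - ‖z‖)⁻¹ ≤ 25 := by
    rw [inv_le_comm₀ (by linarith) (by norm_num)]
    linarith
  have h4 : 0 ≤ ‖z‖ ^ 2 := by positivity
  nlinarith

lemma norm_lam_le {ω : ℂ} (hω : ‖ω‖ ≤ 1) {s : ℂ} (hs : 3 / 2 ≤ s.re) :
    ‖-Complex.log (1 - zw W v ω s)‖ ≤ 14 * xi W v s.re := by
  have h3 := norm_zw_le W v hω s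
  have h2 := h3.trans (xi_le W v hs)
  have h1 := norm_log_sub_le h2
  have h4 : ‖-Complex.log (1 - zw W v ω s)‖ ≤ ‖-Complex.log (1 - zw W v ω s) - zw W v ω s‖ +
      ‖zw W v ω s‖ := by
    have := norm_add_le (-Complex.log (1 - zw W v ω s) - zw W v ω s) (zw W v ω s)
    rwa [sub_add_cancel] at this
  have h5 := norm_nonneg (zw W v ω s)
  nlinarith

lemma norm_rho_le {ω : ℂ} (hω : ‖ω‖ ≤ 1) {s : ℂ} (hs : 3 / 2 ≤ s.re) :
    ‖-Complex.log (1 - zw W v ω s) - cc W v * (ω * (nm v : ℂ) ^ (-(s - 1 / 2)))‖ ≤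
      150 / (pr v : ℝ) ^ 2 := by
  have hp0 : (0 : ℝ) < pr v := by exact_mod_cast (pr_prime v).pos
  have hq := nm_pos v
  have hzl : ‖zw W v ω s‖ ≤ 24 / 25 := (norm_zw_le W v hω s).trans (xi_le W v hs)
  by_cases hp : pr v = 2
  · have e : (cc W v : ℂ) * (ω * (nm v : ℂ) ^ (-(s - 1 / 2))) = 0 := by
      rw [cc, if_neg (by simp [hp])]; simp
    rw [e, sub_zero, hp]
    have h1 := norm_lam_le W v hω hs
    have h2 := xi_le W v hs
    have h3 : (150 : ℝ) / ((2 : ℕ) : ℝ) ^ 2 = 75 / 2 := by norm_num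
    rw [h3]
    linarith
  · obtain ⟨h1, -⟩ := xi_le_of_odd W v hp hs
    have h2 := wt_le v hs
    have hw := wt_pos v s.re
    have hz : ‖zw W v ω s‖ ≤ 3 / nm v := by
      calc ‖zw W v ω s‖ ≤ xi W v s.re := norm_zw_le W v hω s
        _ ≤ 3 * wt v s.re := h1
        _ ≤ 3 * (1 / nm v) := by gcongr
        _ = 3 / nm v := by ring
    by_cases hd : nm v = pr v
    · have e : -Complex.log (1 - zw W v ω s) - cc W v * (ω * (nm v : ℂ) ^ (-(s - 1 / 2))) =
          (-Complex.log (1 - zw W v ω s) - zw W v ω s) -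
            bb W v * (ω * (nm v : ℂ) ^ (-s)) ^ 2 := by
        have e1 : (cc W v : ℂ) * (nm v : ℂ) ^ (-(s - 1 / 2)) = tr W v * (nm v : ℂ) ^ (-s) := by
          rw [sqrt_cpow v s, cc, if_pos ⟨hp, hd⟩]
          push_cast
          ring
        have e2 : (cc W v : ℂ) * (ω * (nm v : ℂ) ^ (-(s - 1 / 2))) =
            tr W v * (ω * (nm v : ℂ) ^ (-s)) := by
          calc (cc W v : ℂ) * (ω * (nm v : ℂ) ^ (-(s - 1 / 2))) =
              ω * ((cc W v : ℂ) * (nm v : ℂ) ^ (-(s - 1 / 2))) := by ring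
            _ = ω * (tr W v * (nm v : ℂ) ^ (-s)) := by rw [e1]
            _ = _ := by ring
        rw [e2, zw]; ring
      rw [e]
      have h4 : ‖(bb W v : ℂ) * (ω * (nm v : ℂ) ^ (-s)) ^ 2‖ ≤ 1 / (nm v : ℝ) ^ 2 := by
        rw [norm_mul, norm_pow, norm_mul, norm_cpow, Complex.norm_intCast]
        have h5 : ‖ω‖ * (nm v : ℝ) ^ (-s.re) ≤ (nm v : ℝ) ^ (-s.re) :=
          mul_le_of_le_one_left (Real.rpow_nonneg (nm_pos v).le _) hω
        have h6 : |(bb W v : ℝ)| * (‖ω‖ * (nm v : ℝ) ^ (-s.re)) ^ 2 ≤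
            |(bb W v : ℝ)| * ((nm v : ℝ) ^ (-s.re)) ^ 2 := by
          gcongr
        refine h6.trans ((bb_term_le W v s.re).trans ?_)
        calc wt v s.re ^ 2 ≤ (1 / nm v) ^ 2 := pow_le_pow_left₀ hw.le h2 2
          _ = 1 / (nm v : ℝ) ^ 2 := by ring
      have h5 : ‖-Complex.log (1 - zw W v ω s) - zw W v ω s‖ ≤ 225 / 2 / (nm v : ℝ) ^ 2 := by
        refine (norm_log_sub_le hzl).trans ?_
        calc 25 / 2 * ‖zw W v ω s‖ ^ 2 ≤ 25 / 2 * (3 / nm v) ^ 2 := by gcongr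
          _ = 225 / 2 / (nm v : ℝ) ^ 2 := by ring
      rw [← hd]
      calc _ ≤ ‖-Complex.log (1 - zw W v ω s) - zw W v ω s‖ +
            ‖(bb W v : ℂ) * (ω * (nm v : ℂ) ^ (-s)) ^ 2‖ := norm_sub_le _ _
        _ ≤ 225 / 2 / (nm v : ℝ) ^ 2 + 1 / (nm v : ℝ) ^ 2 := add_le_add h5 h4
        _ ≤ 150 / (nm v : ℝ) ^ 2 := by
            rw [← add_div]
            gcongr
            norm_num
    · have e : (cc W v : ℂ) * (ω * (nm v : ℂ) ^ (-(s - 1 / 2))) = 0 := by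
        rw [cc, if_neg (by tauto)]; simp
      rw [e, sub_zero]
      have h3 : ((pr v : ℝ)) ^ 2 ≤ nm v := by exact_mod_cast sq_pr_le_nm v hd
      calc ‖-Complex.log (1 - zw W v ω s)‖ ≤ 14 * xi W v s.re := norm_lam_le W v hω hs
        _ ≤ 14 * (3 * (1 / nm v)) := by
            have : xi W v s.re ≤ 3 * (1 / nm v) := h1.trans (by gcongr)
            gcongr
        _ = 42 / nm v := by ring
        _ ≤ 150 / (pr v : ℝ) ^ 2 := by
            gcongr
            norm_num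

end loc

end LTX84

namespace Artin

open NumberField IsDedekindDomain

variable (K : Type*) [Field K] [NumberField K]

end Artin

end Pool.Agent.Lib.MP_bf61d2_nt
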