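import Mathlib

set_option autoImplicit false

/-!
EDGE REPULSION in the conductor aspect (MP_bf61d2_nt): definitions.
-/

namespace NumberField
end NumberField

namespace Pool.Agent.Lib.MP_bf61d2_nt.Artin

open NumberField IsDedekindDomain

/-- The Jacobi symbol of `d` at an odd number, `0` at an even number. -/
def js (d n : ℕ) : ℤ := if 2 ∣ n then 0 else jacobiSym d n

/-- `log log Q`. -/
noncomputable def lq (Q : ℝ) : ℝ := Real.log (Real.log Q)

end Pool.Agent.Lib.MP_bf61d2_nt.Artin
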