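import Mathlib

set_option autoImplicit false

/-!
EDGE REPULSION in the conductor aspect (MP_bf61d2_nt), module BESX: the inequality of Bessel for all
Dirichlet characters of the norm of the same parity.
-/

namespace NumberField
end NumberField

namespace Pool.Agent.Lib.MP_bf61d2_nt.Artin

open NumberField IsDedekindDomain Filter Topology Module

section

variable (K : Type*) [Field K] [NumberField K]

variable {K}

lemma chi_coprime_ne {m : ℕ} (χ : DirichletCharacter ℂ m) {n : ℕ} (h : Nat.Coprime n m) :
    χ n ≠ 0 := by
  have := (ZMod.isUnit_iff_coprime n m).mpr h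
  exact (this.map χ).ne_zero

variable (K)

end

end Pool.Agent.Lib.MP_bf61d2_nt.Artin
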