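import Mathlib
import Pool.Agent.Lib.MP_bf61d2_nt.Trim.Artin.T.DefsT84

set_option autoImplicit false

/-!
EDGE REPULSION in the conductor aspect (MP_bf61d2_nt): the theorem for the twists of the quadratic
twists `E_d` by all Dirichlet characters of modulus up to `Q` (of one parity).
-/

namespace NumberField
end NumberField

namespace Pool.Agent.Lib.MP_bf61d2_nt.Perm
end Pool.Agent.Lib.MP_bf61d2_nt.Perm

namespace Pool.Agent.Lib.MP_bf61d2_nt.Artin

open NumberField IsDedekindDomain Filter Topology Module

open Pool.Agent.Lib.MP_bf61d2_nt.Perm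

section

variable (K : Type*) [Field K] [NumberField K]

lemma js_odd {d n : ℕ} (h : Nat.Coprime n 2) : js d n = jacobiSym d n := by
  unfold js
  rw [if_neg]
  intro h2
  have := Nat.Coprime.eq_one_of_dvd (Nat.Coprime.symm h) h2
  omega

end

end Pool.Agent.Lib.MP_bf61d2_nt.Artin
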