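import Mathlib
import Pool.Agent.Lib.MP_bf61d2_nt.Trim.Artin.T.DefsT84

set_option autoImplicit false

/-!
EDGE REPULSION in the conductor aspect (MP_bf61d2_nt), module PAGE: among the real characters
`js D`, `D ≤ Q ^ 2`, at most one class has a small value near `s = 1` (Landau, Page).
-/

namespace NumberField
end NumberField

namespace Pool.Agent.Lib.MP_bf61d2_nt.Artin

open NumberField IsDedekindDomain Filter Topology Module

section

variable (K : Type*) [Field K] [NumberField K]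

lemma log_twenty : 2.9 ≤ Real.log 20 := by
  have h1 : (2.9 : ℝ) = Real.log (Real.exp 2.9) := by rw [Real.log_exp]
  rw [h1]
  apply Real.log_le_log (Real.exp_pos _)
  have h2 : Real.exp 2.9 = Real.exp 1 ^ (2.9 : ℝ) := by
    rw [← Real.exp_mul, one_mul]
  have h3 : Real.exp 1 ≤ 2.7183 := by
    have := Real.exp_one_lt_d9
    linarith
  have h4 : Real.exp 1 ^ (2.9 : ℝ) ≤ (2.7183 : ℝ) ^ (2.9 : ℝ) :=
    Real.rpow_le_rpow (Real.exp_pos _).le h3 (by norm_num)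
  have h5 : (2.7183 : ℝ) ^ (2.9 : ℝ) ≤ (2.7183 : ℝ) ^ (3 : ℝ) * (2.7183 : ℝ) ^ (-(0.1 : ℝ)) := by
    rw [← Real.rpow_add (by norm_num)]
    norm_num
  have h6 : (2.7183 : ℝ) ^ (-(0.1 : ℝ)) ≤ 1 :=
    Real.rpow_le_one_of_one_le_of_nonpos (by norm_num) (by norm_num)
  have h7 : (2.7183 : ℝ) ^ (-(0.1 : ℝ)) ≤ 0.95 := by
    have h8 : (0.95 : ℝ)⁻¹ ≤ (2.7183 : ℝ) ^ (0.1 : ℝ) := by
      have h9 : ((0.95 : ℝ)⁻¹) ^ (10 : ℝ) ≤ 2.7183 := by
        have : ((0.95 : ℝ)⁻¹) ^ (10 : ℝ) = ((0.95 : ℝ)⁻¹) ^ (10 : ℕ) := by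
          rw [← Real.rpow_natCast]; norm_num
        rw [this]; norm_num
      have h10 : (((0.95 : ℝ)⁻¹) ^ (10 : ℝ)) ^ (0.1 : ℝ) ≤ (2.7183 : ℝ) ^ (0.1 : ℝ) :=
        Real.rpow_le_rpow (by positivity) h9 (by norm_num)
      rw [← Real.rpow_mul (by positivity)] at h10
      norm_num at h10 ⊢
      exact h10
    rw [Real.rpow_neg (by norm_num)]
    rw [inv_le_comm₀ (by positivity) (by norm_num)]
    exact h8
  rw [h2]
  refine h4.trans (h5.trans ?_)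
  have h11 : (2.7183 : ℝ) ^ (3 : ℝ) = (2.7183 : ℝ) ^ (3 : ℕ) := by
    rw [← Real.rpow_natCast]; norm_num
  rw [h11]
  nlinarith

lemma Q_facts {Q : ℝ} (hQ : 20 ≤ Q) : 2.9 ≤ Real.log Q ∧ 1 ≤ lq Q ∧ Real.exp 1 ≤ Real.log Q := by
  have h1 : 2.9 ≤ Real.log Q := log_twenty.trans (Real.log_le_log (by norm_num) hQ)
  have h3 : Real.exp 1 ≤ Real.log Q := by
    have := Real.exp_one_lt_d9
    linarith
  refine ⟨h1, ?_, h3⟩
  rw [lq]
  have := Real.log_le_log (Real.exp_pos 1) h3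
  rwa [Real.log_exp] at this

end

end Pool.Agent.Lib.MP_bf61d2_nt.Artin
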