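import Mathlib
import Pool.Agent.Lib.MP_bf61d2_nt.Trim.Artin.T.DefsT84

set_option autoImplicit false

/-!
EDGE REPULSION in the conductor aspect (MP_bf61d2_nt), modules J1, J2: the symbol `js d` is an even
Dirichlet character modulo `4 d`.
-/

namespace Pool.Agent.Lib.MP_bf61d2_nt.Artin.J84
end Pool.Agent.Lib.MP_bf61d2_nt.Artin.J84

namespace Pool.Agent.Lib.MP_bf61d2_nt.Artin

/-- J2 -/
theorem js_mul (d e n : ℕ) : js (d * e) n = js d n * js e n := by
  unfold js
  split_ifs with h
  · simp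
  · push_cast
    exact jacobiSym.mul_left _ _ _

namespace J84

lemma js_odd {d n : ℕ} (h : ¬ 2 ∣ n) : js d n = jacobiSym d n := by
  rw [js, if_neg h]

lemma js_even {d n : ℕ} (h : 2 ∣ n) : js d n = 0 := by
  rw [js, if_pos h]

lemma js_one (d : ℕ) : js d 1 = 1 := by
  rw [js_odd (by omega), jacobiSym.one_right]

lemma js_mul_right (d a b : ℕ) : js d (a * b) = js d a * js d b := by
  by_cases ha : 2 ∣ a
  · rw [js_even ha, js_even (ha.mul_right b), zero_mul]
  by_cases hb : 2 ∣ b
  · rw [js_even hb, js_even (hb.mul_left a), mul_zero]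
  have hab : ¬ 2 ∣ a * b := by
    rw [Nat.prime_two.dvd_mul]
    tauto
  rw [js_odd ha, js_odd hb, js_odd hab]
  have ha0 : a ≠ 0 := by rintro rfl; exact ha (dvd_zero 2)
  have hb0 : b ≠ 0 := by rintro rfl; exact hb (dvd_zero 2)
  have : NeZero a := ⟨ha0⟩
  have : NeZero b := ⟨hb0⟩
  exact jacobiSym.mul_right _ _ _

lemma js_mod (d n : ℕ) : js d (n % (4 * d)) = js d n := by
  have h2 : 2 ∣ n % (4 * d) ↔ 2 ∣ n := by
    rw [Nat.dvd_mod_iff (dvd_mul_of_dvd_left (by norm_num) d)]
  by_cases h : 2 ∣ n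
  · rw [js_even h, js_even (h2.mpr h)]
  · rw [js_odd h, js_odd (fun h' => h (h2.mp h'))]
    have hodd : Odd n := by
      rw [← Nat.not_even_iff_odd, even_iff_two_dvd]; exact h
    have := jacobiSym.mod_right (d : ℤ) hodd
    rw [Int.natAbs_natCast] at this
    exact this.symm

lemma js_zero_of {d n : ℕ} (hn : n ≠ 0) (h : ¬ Nat.Coprime n (4 * d)) : js d n = 0 := by
  by_cases h2 : 2 ∣ n
  · exact js_even h2
  · rw [js_odd h2]
    have : NeZero n := ⟨hn⟩
    rw [jacobiSym.eq_zero_iff_not_coprime]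
    intro hc
    apply h
    have h3 : Nat.Coprime n 4 := by
      have : Nat.Coprime n 2 := ((Nat.prime_two.coprime_iff_not_dvd).mpr h2).symm
      exact Nat.Coprime.pow_right 2 this
    refine Nat.Coprime.mul_right h3 ?_
    rw [Nat.coprime_comm]
    simpa [Int.gcd_natCast_natCast, Nat.Coprime] using hc

/-- The value at `4 d - 1`. -/
lemma js_neg_one {d : ℕ} (hd : 0 < d) : js d (4 * d - 1) = 1 := by
  obtain ⟨e, d', hd', rfl⟩ := Nat.exists_eq_two_pow_mul_odd hd.ne'
  set n : ℕ := 4 * (2 ^ e * d') - 1 with hn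
  have hpos : 0 < 2 ^ e * d' := hd
  have h2 : ¬ 2 ∣ n := by omega
  have hodd : Odd n := by
    rw [← Nat.not_even_iff_odd, even_iff_two_dvd]; exact h2
  rw [js_mul, js_odd h2, js_odd h2]
  have hn4 : n % 4 = 3 := by omega
  have e1 : jacobiSym ((2 ^ e : ℕ) : ℤ) n = 1 := by
    push_cast
    rw [jacobiSym.pow_left]
    rcases Nat.eq_zero_or_pos e with rfl | he
    · simp
    · have h8 : n % 8 = 7 := by
        obtain ⟨k, rfl⟩ : ∃ k, e = k + 1 := ⟨e - 1, by omega⟩
        have : 2 ^ (k + 1) * d' = 2 * (2 ^ k * d') := by ring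
        rw [hn, this]
        have : 0 < 2 ^ k * d' := by rw [this] at hpos; omega
        omega
      have h9 : jacobiSym 2 n = 1 := by
        rw [jacobiSym.at_two hodd, ZMod.χ₈_nat_mod_eight, h8]
        decide
      rw [h9, one_pow]
  have e2 : jacobiSym (d' : ℤ) n = 1 := by
    have hq := jacobiSym.quadratic_reciprocity' hd' hodd
    have hnd : jacobiSym (n : ℤ) d' = jacobiSym (-1) d' := by
      rw [jacobiSym.mod_left (n : ℤ) d', jacobiSym.mod_left (-1) d']
      congr 1
      rw [hn]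
      have : ((4 * (2 ^ e * d') - 1 : ℕ) : ℤ) = -1 + d' * (4 * 2 ^ e) := by
        rw [Nat.cast_sub (by omega)]
        push_cast
        ring
      rw [this, Int.add_mul_emod_self_left]
    rcases Nat.odd_mod_four_iff.mp (Nat.odd_iff.mp hd') with h | h
    · rw [jacobiSym.quadratic_reciprocity_one_mod_four h hodd, hnd, jacobiSym.at_neg_one hd',
        ZMod.χ₄_nat_one_mod_four h]
    · rw [jacobiSym.quadratic_reciprocity_three_mod_four h hn4, hnd, jacobiSym.at_neg_one hd',
        ZMod.χ₄_nat_three_mod_four h]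
      norm_num
  rw [e1, e2, one_mul]

end J84

open J84

/-- J1 -/
theorem exists_char (d : ℕ) (hd : 0 < d) : ∃ χ : DirichletCharacter ℂ (4 * d), χ.Even ∧
    (∀ n, χ n = 0 ∨ χ n = 1 ∨ χ n = -1) ∧ ∀ n : ℕ, χ (n : ZMod (4 * d)) = (js d n : ℂ) := by
  have : NeZero (4 * d) := ⟨by omega⟩
  have hval : ∀ n : ℕ, js d ((n : ZMod (4 * d)).val) = js d n := fun n => by
    rw [ZMod.val_natCast, js_mod]
  have h1 : ((1 : ZMod (4 * d)).val) = 1 := by
    have : Fact (1 < 4 * d) := ⟨by omega⟩
    exact ZMod.val_one _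
  set χ : DirichletCharacter ℂ (4 * d) :=
    { toFun := fun a => ((js d a.val : ℤ) : ℂ)
      map_one' := by rw [h1, js_one]; norm_num
      map_mul' := fun a b => by
        rw [ZMod.val_mul, js_mod, js_mul_right]
        push_cast
        rfl
      map_nonunit' := fun a ha => by
        have hne : ¬ Nat.Coprime a.val (4 * d) := by
          intro hc
          apply ha
          have := (ZMod.isUnit_iff_coprime a.val (4 * d)).mpr hc
          rwa [ZMod.natCast_zmod_val] at this
        by_cases h0 : a.val = 0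
        · rw [h0, js_even (dvd_zero 2)]; norm_num
        · rw [js_zero_of h0 hne]; norm_num } with hχ
  have hχn : ∀ n : ℕ, χ (n : ZMod (4 * d)) = (js d n : ℂ) := fun n => by
    show ((js d ((n : ZMod (4 * d)).val) : ℤ) : ℂ) = _
    rw [hval]
  refine ⟨χ, ?_, ?_, hχn⟩
  · have e : (-1 : ZMod (4 * d)) = ((4 * d - 1 : ℕ) : ZMod (4 * d)) := by
      rw [Nat.cast_sub (by omega), ZMod.natCast_self]
      simp
    rw [DirichletCharacter.Even, e, hχn, js_neg_one hd]
    norm_num
  · intro a
    have e : a = ((a.val : ℕ) : ZMod (4 * d)) := (ZMod.natCast_zmod_val a).symm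
    rw [e, hχn]
    unfold js
    split_ifs with h
    · left; simp
    · rcases jacobiSym.trichotomy (d : ℤ) a.val with h | h | h <;> rw [h] <;> simp

end Pool.Agent.Lib.MP_bf61d2_nt.Artin
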