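import Mathlib
import Pool.Agent.Lib.MP_bf61d2_nt.Trim.Artin.T.DefsT84
import Pool.Agent.Lib.MP_bf61d2_nt.Trim.Places
import Pool.Agent.Lib.MP_bf61d2_nt.Trim.Residue
import Pool.Agent.Lib.MP_bf61d2_nt.Trim.TwistLocal

set_option autoImplicit false

/-!
EDGE REPULSION, conductor aspect (MP_bf61d2_nt), modules J3 and J5: the quadratic character of the
residue field at a rational integer.
-/

namespace NumberField
end NumberField

namespace Pool.Agent.Lib.MP_bf61d2_nt.Perm
end Pool.Agent.Lib.MP_bf61d2_nt.Perm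

namespace Pool.Agent.Lib.MP_bf61d2_nt.Artin

open NumberField IsDedekindDomain IsLocalRing

open Pool.Agent.Lib.MP_bf61d2_nt.Perm

namespace J40

/-- The quadratic character of a finite field at a rational integer is a Jacobi symbol. -/
theorem quadraticChar_natCast {F : Type*} [Field F] [Fintype F] [DecidableEq F] {p f : ℕ}
    (hp : p.Prime) (hp2 : p ≠ 2) [CharP F p] (hcard : Fintype.card F = p ^ f) {d : ℕ}
    (hd : (d : F) ≠ 0) : quadraticChar F (d : F) = jacobiSym d (p ^ f) := by
  have hfact : Fact p.Prime := ⟨hp⟩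
  have hF : ringChar F ≠ 2 := by
    rw [ringChar.eq F p]
    exact hp2
  rw [jacobiSym.pow_right, ← jacobiSym.legendreSym.to_jacobiSym]
  set ε : ℤ := legendreSym p d with hε
  have hdp : ((d : ℤ) : ZMod p) ≠ 0 := by
    intro h
    apply hd
    rw [Int.cast_natCast, ZMod.natCast_eq_zero_iff] at h
    exact (CharP.cast_eq_zero_iff F p d).mpr h
  have hε1 : ε = 1 ∨ ε = -1 := legendreSym.eq_one_or_neg_one p hdp
  have hεp : (ε : F) ^ p = ε := by
    have hodd : Odd p := hp.odd_of_ne_two hp2
    rcases hε1 with h | h <;> rw [h]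
    · simp
    · push_cast
      exact hodd.neg_one_pow
  have hcast : (ε : F) = (d : F) ^ (p / 2) := by
    have h1 := legendreSym.eq_pow p (d : ℤ)
    have h2 := congrArg (ZMod.castHom (dvd_refl p) F) h1
    rw [map_pow, map_intCast, map_intCast] at h2
    rw [hε, h2]
    push_cast
    rfl
  have hodd : p % 2 = 1 := Nat.odd_iff.mp (hp.odd_of_ne_two hp2)
  have hind : ∀ k : ℕ, (d : F) ^ (p ^ k / 2) = (ε : F) ^ k := by
    intro k
    induction k with
    | zero => simp
    | succ k ih =>
      have hk : p ^ k % 2 = 1 := by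
        rw [Nat.pow_mod, hodd, one_pow]
        rfl
      have e : p ^ (k + 1) / 2 = (p ^ k / 2) * p + p / 2 := by
        obtain ⟨a, ha⟩ : ∃ a, p ^ k = 2 * a + 1 := ⟨p ^ k / 2, by omega⟩
        obtain ⟨b, hb⟩ : ∃ b, p = 2 * b + 1 := ⟨p / 2, by omega⟩
        have h3 : p ^ (k + 1) = 2 * (a * p + b) + 1 := by
          calc p ^ (k + 1) = (2 * a + 1) * p := by rw [pow_succ, ha]
            _ = 2 * (a * p) + p := by ring
            _ = 2 * (a * p + b) + 1 := by omega
        rw [h3, ha]
        have h4 : (2 * a + 1) / 2 = a := by omega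
        have h5 : p / 2 = b := by omega
        rw [h4, h5]
        omega
      rw [e, pow_add, pow_mul, ih, ← pow_mul, mul_comm k p, pow_mul, hεp, ← hcast, pow_succ]
  have hmain : ((quadraticChar F (d : F) : ℤ) : F) = ((ε ^ f : ℤ) : F) := by
    rw [quadraticChar_eq_pow_of_char_ne_two' hF, hcard, hind f]
    push_cast
    rfl
  have hne : (1 : F) ≠ -1 := fun h => Ring.neg_one_ne_one_of_char_ne_two hF h.symm
  have hεf : ε ^ f = 1 ∨ ε ^ f = -1 := by
    rcases hε1 with h | h <;> rw [h]
    · left; simp
    · exact neg_one_pow_eq_or ℤ f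
  rcases quadraticChar_dichotomy hd with h1 | h1 <;> rcases hεf with h2 | h2
  · rw [h1, h2]
  · rw [h1, h2] at hmain
    push_cast at hmain
    exact absurd hmain hne
  · rw [h1, h2] at hmain
    push_cast at hmain
    exact absurd hmain.symm hne
  · rw [h1, h2]

end J40

section J

variable {K : Type*} [Field K] [NumberField K]

/-- J3: the quadratic character at the place `v` of a rational integer. -/
theorem chi_eq_js {d : ℕ} {v : HeightOneSpectrum (𝓞 K)}
    (h : ((2 * d : ℕ) : 𝓞 K) ∉ v.asIdeal) : chi v (d : 𝓞 K) = js d (nm v) := by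
  classical
  let := Fintype.ofFinite (ResidueField (v.adicCompletionIntegers K))
  have h2 : (2 : 𝓞 K) ∉ v.asIdeal := by
    intro h2
    apply h
    push_cast
    exact Ideal.mul_mem_right _ _ h2
  have hd : (d : 𝓞 K) ∉ v.asIdeal := by
    intro h2
    apply h
    push_cast
    exact Ideal.mul_mem_left _ _ h2
  have hp2 : pr v ≠ 2 := by
    intro hp
    have := pr_mem v
    rw [hp] at this
    exact h2 (by exact_mod_cast this)
  obtain ⟨f, hf, hnm⟩ := nm_eq v
  have hcard : Fintype.card (ResidueField (v.adicCompletionIntegers K)) = pr v ^ f := by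
    rw [← Nat.card_eq_fintype_card, ← hnm]
    exact card_residue v
  have hchar : CharP (ResidueField (v.adicCompletionIntegers K)) (pr v) := by
    have hp0 : ((pr v : ℕ) : ResidueField (v.adicCompletionIntegers K)) = 0 := by
      have := (red_eq_zero_iff v _).mpr (pr_mem v)
      rwa [map_natCast] at this
    exact (CharP.charP_iff_prime_eq_zero (pr_prime v)).mpr hp0
  have hd0 : ((d : ℕ) : ResidueField (v.adicCompletionIntegers K)) ≠ 0 := by
    intro h0
    apply hd
    rw [← red_eq_zero_iff v, map_natCast]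
    exact h0
  have key := J40.quadraticChar_natCast (pr_prime v) hp2 hcard hd0
  have hodd : ¬ 2 ∣ nm v := by
    rw [hnm]
    intro h3
    have h4 := Nat.prime_two.dvd_of_dvd_pow h3
    exact hp2 ((Nat.prime_dvd_prime_iff_eq Nat.prime_two (pr_prime v)).mp h4).symm
  rw [js, if_neg hodd, hnm, ← key]
  unfold chi
  rw [map_natCast]

end J

end Pool.Agent.Lib.MP_bf61d2_nt.Artin
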