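import Mathlib
import Pool.Agent.Lib.MP_bf61d2_nt.Trim.Artin.Defs63
import Pool.Agent.Lib.MP_bf61d2_nt.Trim.Artin.T.DefsT84

set_option autoImplicit false

/-!
Conductor aspect (MP_bf61d2_nt), module LT: the logarithm of the L-function of the twist.
-/

namespace NumberField
end NumberField

namespace Pool.Agent.Lib.MP_bf61d2_nt.Perm
end Pool.Agent.Lib.MP_bf61d2_nt.Perm

namespace Pool.Agent.Lib.MP_bf61d2_nt.Artin

open NumberField IsDedekindDomain Filter Topology Module

open Pool.Agent.Lib.MP_bf61d2_nt.Perm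

namespace LT73

lemma norm_ph (u : ℝ) (n : ℕ) : ‖ph u n‖ = 1 := by
  rw [ph, Complex.norm_exp_ofReal_mul_I]

lemma abs_js_le (d n : ℕ) : |(js d n : ℝ)| ≤ 1 := by
  rw [js]
  split_ifs
  · simp
  · rcases jacobiSym.trichotomy d n with h | h | h <;> rw [h] <;> simp

variable {K : Type*} [Field K] [NumberField K]

end LT73

end Pool.Agent.Lib.MP_bf61d2_nt.Artin
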