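import Mathlib
import Pool.Agent.Lib.MP_bf61d2_nt.Trim.Artin.Defs63

set_option autoImplicit false

/-!
EDGE REPULSION in the conductor aspect (MP_bf61d2_nt), module BES: the inequality of Bessel for the
characters `js d (N v) (N v) ^ (-i t)`.
-/

namespace NumberField
end NumberField

namespace Pool.Agent.Lib.MP_bf61d2_nt.Artin

open NumberField IsDedekindDomain Filter Topology Module

lemma ph_conj (u : ℝ) (n : ℕ) : (starRingEnd ℂ) (ph u n) = ph (-u) n := by
  unfold ph
  rw [← Complex.exp_conj]
  congr 1
  rw [map_mul, Complex.conj_I, Complex.conj_ofReal]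
  push_cast
  ring

lemma ph_add' (u t : ℝ) (n : ℕ) : ph u n * ph t n = ph (u + t) n := by
  unfold ph
  rw [← Complex.exp_add]
  congr 1
  push_cast
  ring

section

variable (K : Type*) [Field K] [NumberField K]

end

end Pool.Agent.Lib.MP_bf61d2_nt.Artin
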